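import Pool.Agent.Q262.CycFinal

set_option autoImplicit false

namespace Pool.Agent.Results.MP_0523aa_nt.MaxHeightIsTwo

open Q262.Hgt

/-- `B(2 q^b) = 2` for every odd prime `q` and every `b ≥ 1`: the largest height of a divisor of
`X^{2 q^b} - 1` in `ℤ[X]` is `2`. -/
theorem result (q b : ℕ) (hq : q.Prime) (h2 : q ≠ 2) (hb : 1 ≤ b) :
    IsGreatest (divisorHeights (2 * q ^ b)) 2 :=
  two_mul_pow hq h2 hb

end Pool.Agent.Results.MP_0523aa_nt.MaxHeightIsTwo
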